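import Mathlib

set_option autoImplicit false

open Real Set

namespace Pool.Agent.Results.MP_174dab_an.ChordSetFull

/-- The sine sum `g_n(x) = ∑_{k=1}^n sin (2 π k x)`. -/
noncomputable def g (n : ℕ) (x : ℝ) : ℝ :=
  ∑ k ∈ Finset.Icc 1 n, Real.sin (2 * Real.pi * (k : ℝ) * x)

/-- The chord set `H(f) = {ℓ ∈ [0,1] : f (x - ℓ) = f x for some x ∈ [ℓ,1]}`. -/
def H (f : ℝ → ℝ) : Set ℝ :=
  {l | l ∈ Set.Icc (0 : ℝ) 1 ∧ ∃ x ∈ Set.Icc l 1, f (x - l) = f x}

/-- The set `V_n = ⋃_{k=1}^n (k/(n+1), k/n)`. -/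
def V (n : ℕ) : Set ℝ :=
  ⋃ k ∈ Finset.Icc 1 n, Set.Ioo ((k : ℝ) / ((n : ℝ) + 1)) ((k : ℝ) / (n : ℝ))

lemma g_zero (n : ℕ) : g n 0 = 0 := by simp [g]

lemma g_one_sub (n : ℕ) (x : ℝ) : g n (1 - x) = - g n x := by
  unfold g
  rw [← Finset.sum_neg_distrib]
  refine Finset.sum_congr rfl fun k _ => ?_
  have : 2 * π * (k : ℝ) * (1 - x) = (k : ℝ) * (2 * π) - 2 * π * (k : ℝ) * x := by ring
  rw [this, Real.sin_nat_mul_two_pi_sub]

lemma g_one (n : ℕ) : g n 1 = 0 := by
  have := g_one_sub n 0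
  simpa [g_zero] using this

/-- The closed form `2 sin (π x) g_n(x) = cos (π x) - cos ((2n+1) π x)`. -/
lemma two_sin_mul_g (n : ℕ) (x : ℝ) :
    2 * Real.sin (π * x) * g n x = Real.cos (π * x) - Real.cos ((2 * (n : ℝ) + 1) * (π * x)) := by
  induction n with
  | zero => simp [g]
  | succ n ih =>
    have hs : g (n + 1) x = g n x + Real.sin (2 * π * ((n + 1 : ℕ) : ℝ) * x) := by
      unfold g
      rw [Finset.sum_Icc_succ_top (by omega)]
    rw [hs, mul_add, ih]
    have e1 : (2 * (n : ℝ) + 1) * (π * x) = 2 * π * ((n + 1 : ℕ) : ℝ) * x - π * x := by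
      push_cast; ring
    have e2 : (2 * ((n + 1 : ℕ) : ℝ) + 1) * (π * x) = 2 * π * ((n + 1 : ℕ) : ℝ) * x + π * x := by
      push_cast; ring
    rw [e1, e2, Real.cos_sub, Real.cos_add]
    ring

/-- The product form `sin (π x) g_n(x) = sin (n π x) sin ((n+1) π x)`. -/
lemma sin_mul_g (n : ℕ) (x : ℝ) :
    Real.sin (π * x) * g n x = Real.sin ((n : ℝ) * (π * x)) * Real.sin (((n : ℝ) + 1) * (π * x)) := by
  have h := two_sin_mul_g n x
  have e1 : (2 * (n : ℝ) + 1) * (π * x) = (n : ℝ) * (π * x) + ((n : ℝ) + 1) * (π * x) := by ring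
  have e2 : π * x = ((n : ℝ) + 1) * (π * x) - (n : ℝ) * (π * x) := by ring
  have h2 : Real.cos (π * x) = Real.cos (((n : ℝ) + 1) * (π * x)) * Real.cos ((n : ℝ) * (π * x))
      + Real.sin (((n : ℝ) + 1) * (π * x)) * Real.sin ((n : ℝ) * (π * x)) := by
    conv_lhs => rw [e2]
    rw [Real.cos_sub]
  rw [e1, Real.cos_add, h2] at h
  linarith

lemma continuous_g (n : ℕ) : Continuous (g n) := by
  unfold g
  fun_prop

/-! ### Chords of length outside `V_n` -/

/-- A primitive of `g_n`. -/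
noncomputable def G (n : ℕ) (x : ℝ) : ℝ :=
  ∑ k ∈ Finset.Icc 1 n, (- Real.cos (2 * Real.pi * (k : ℝ) * x) / (2 * Real.pi * (k : ℝ)))

lemma hasDerivAt_G (n : ℕ) (x : ℝ) : HasDerivAt (G n) (g n x) x := by
  unfold G g
  refine HasDerivAt.fun_sum fun k hk => ?_
  have hk1 : (1 : ℝ) ≤ k := by exact_mod_cast (Finset.mem_Icc.mp hk).1
  have hne : (2 * π * (k : ℝ)) ≠ 0 := by positivity
  have h1 : HasDerivAt (fun y : ℝ => 2 * π * (k : ℝ) * y) (2 * π * (k : ℝ)) x := by
    simpa using (hasDerivAt_id x).const_mul (2 * π * (k : ℝ))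
  have h2 := (h1.cos.neg).div_const (2 * π * (k : ℝ))
  have h3 : -(-Real.sin (2 * π * (k : ℝ) * x) * (2 * π * (k : ℝ))) / (2 * π * (k : ℝ))
      = Real.sin (2 * π * (k : ℝ) * x) := by
    rw [div_eq_iff hne]; ring
  rw [h3] at h2
  exact h2

lemma G_one_sub (n : ℕ) (x : ℝ) : G n (1 - x) = G n x := by
  unfold G
  refine Finset.sum_congr rfl fun k _ => ?_
  have : 2 * π * (k : ℝ) * (1 - x) = (k : ℝ) * (2 * π) - 2 * π * (k : ℝ) * x := by ring
  rw [this, Real.cos_nat_mul_two_pi_sub]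

lemma G_zero_le (n : ℕ) (x : ℝ) : G n 0 ≤ G n x := by
  unfold G
  refine Finset.sum_le_sum fun k hk => ?_
  have hk1 : (1 : ℝ) ≤ k := by exact_mod_cast (Finset.mem_Icc.mp hk).1
  have hpos : 0 < (2 * π * (k : ℝ)) := by positivity
  apply div_le_div_of_nonneg_right _ hpos.le
  simp only [mul_zero, Real.cos_zero]
  linarith [Real.cos_le_one (2 * π * (k : ℝ) * x)]

/-- If `g_n(ℓ) ≥ 0` then `g_n` has a horizontal chord of length `ℓ`. -/
lemma exists_chord (n : ℕ) (l : ℝ) (h0 : 0 ≤ l) (h1 : l ≤ 1) (hg : 0 ≤ g n l) :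
    ∃ x ∈ Set.Icc l 1, g n (x - l) = g n x := by
  rcases eq_or_lt_of_le h1 with h1 | h1
  · subst h1
    exact ⟨1, ⟨le_refl _, le_refl _⟩, by simp [g_zero, g_one]⟩
  -- the mean value theorem for `Ψ u = G (u+l) - G u` on `[0, 1-l]`
  have hlt : (0 : ℝ) < 1 - l := by linarith
  set Ψ : ℝ → ℝ := fun u => G n (u + l) - G n u with hΨ
  have hder : ∀ u, HasDerivAt Ψ (g n (u + l) - g n u) u := by
    intro u
    have a1 : HasDerivAt (fun v : ℝ => v + l) 1 u := (hasDerivAt_id u).add_const l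
    have a2 := (hasDerivAt_G n (u + l)).comp u a1
    have a3 := a2.sub (hasDerivAt_G n u)
    rw [mul_one] at a3
    exact a3
  obtain ⟨u, hu, hmvt⟩ := exists_hasDerivAt_eq_slope Ψ (fun u => g n (u + l) - g n u) hlt
    (fun u _ => (hder u).continuousAt.continuousWithinAt) (fun u _ => hder u)
  have hval : Ψ (1 - l) - Ψ 0 ≤ 0 := by
    simp only [hΨ]
    have e1 : G n (1 - l + l) = G n 0 := by
      have := G_one_sub n 0
      simpa using this
    have e2 : G n (0 + l) = G n l := by simp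
    rw [e1, e2, G_one_sub]
    linarith [G_zero_le n l]
  have hneg : g n (u + l) - g n u ≤ 0 := by
    rw [hmvt]
    exact div_nonpos_of_nonpos_of_nonneg hval (by linarith)
  -- intermediate value theorem
  have hc : ContinuousOn (fun v => g n (v + l) - g n v) (Set.Icc 0 u) := by
    have := continuous_g n
    exact (by fun_prop : Continuous (fun v => g n (v + l) - g n v)).continuousOn
  have hiv := intermediate_value_Icc' (le_of_lt hu.1) hc
  have h0mem : (0 : ℝ) ∈ Set.Icc (g n (u + l) - g n u) (g n (0 + l) - g n 0) := by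
    refine ⟨hneg, ?_⟩
    simpa [g_zero] using hg
  obtain ⟨v, hv, hv0⟩ := hiv h0mem
  refine ⟨v + l, ⟨by linarith [hv.1], by linarith [hv.2, hu.2]⟩, ?_⟩
  simp only at hv0
  have : v + l - l = v := by ring
  rw [this]
  linarith

/-- Outside `V_n` the function `g_n` is nonnegative. -/
lemma g_nonneg_of_not_mem (n : ℕ) (hn : 1 ≤ n) (l : ℝ) (h0 : 0 ≤ l) (h1 : l ≤ 1) (hV : l ∉ V n) :
    0 ≤ g n l := by
  have hn0 : (0 : ℝ) < n := by exact_mod_cast hn
  rcases eq_or_lt_of_le h1 with h1 | h1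
  · subst h1; simp [g_one]
  rcases eq_or_lt_of_le h0 with h0 | h0
  · subst h0; simp [g_zero]
  have hsin : 0 < Real.sin (π * l) := by
    apply Real.sin_pos_of_pos_of_lt_pi
    · positivity
    · nlinarith [Real.pi_pos]
  -- `k = ⌊n l⌋ + 1`
  set k : ℕ := ⌊(n : ℝ) * l⌋₊ with hk
  have hk1 : (k : ℝ) ≤ (n : ℝ) * l := Nat.floor_le (by positivity)
  have hk2 : (n : ℝ) * l < (k : ℝ) + 1 := Nat.lt_floor_add_one _
  have hkn : k + 1 ≤ n := by
    have : (k : ℝ) < n := by nlinarith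
    have : k < n := by exact_mod_cast this
    omega
  have hk3 : ((n : ℝ) + 1) * l ≤ (k : ℝ) + 1 := by
    by_contra hcon
    push Not at hcon
    apply hV
    unfold V
    simp only [Set.mem_iUnion]
    refine ⟨k + 1, Finset.mem_Icc.mpr ⟨by omega, hkn⟩, ?_, ?_⟩
    · rw [div_lt_iff₀ (by positivity)]
      push_cast
      linarith [mul_comm l ((n : ℝ) + 1)]
    · rw [lt_div_iff₀ hn0]
      push_cast
      linarith [mul_comm l (n : ℝ)]
  have hprod : 0 ≤ Real.sin ((n : ℝ) * (π * l)) * Real.sin (((n : ℝ) + 1) * (π * l)) := by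
    have hpow : (-1 : ℝ) ^ k * (-1) ^ k = 1 := by rw [← mul_pow]; norm_num
    have e1 : Real.sin ((n : ℝ) * (π * l))
        = (-1) ^ k * Real.sin ((n : ℝ) * (π * l) - (k : ℝ) * π) := by
      rw [Real.sin_sub_nat_mul_pi, ← mul_assoc ((-1 : ℝ) ^ k), hpow, one_mul]
    have e2 : Real.sin (((n : ℝ) + 1) * (π * l))
        = (-1) ^ k * Real.sin (((n : ℝ) + 1) * (π * l) - (k : ℝ) * π) := by
      rw [Real.sin_sub_nat_mul_pi, ← mul_assoc ((-1 : ℝ) ^ k), hpow, one_mul]
    have f1 : 0 ≤ Real.sin ((n : ℝ) * (π * l) - (k : ℝ) * π) := by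
      apply Real.sin_nonneg_of_nonneg_of_le_pi
      · nlinarith [Real.pi_pos]
      · nlinarith [Real.pi_pos]
    have f2 : 0 ≤ Real.sin (((n : ℝ) + 1) * (π * l) - (k : ℝ) * π) := by
      apply Real.sin_nonneg_of_nonneg_of_le_pi
      · nlinarith [Real.pi_pos]
      · nlinarith [Real.pi_pos]
    rw [e1, e2]
    have : (-1 : ℝ) ^ k * Real.sin ((n : ℝ) * (π * l) - (k : ℝ) * π)
        * ((-1) ^ k * Real.sin (((n : ℝ) + 1) * (π * l) - (k : ℝ) * π))
        = ((-1 : ℝ) ^ k * (-1) ^ k) * (Real.sin ((n : ℝ) * (π * l) - (k : ℝ) * π)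
          * Real.sin (((n : ℝ) + 1) * (π * l) - (k : ℝ) * π)) := by ring
    rw [this, hpow, one_mul]
    exact mul_nonneg f1 f2
  rw [← sin_mul_g] at hprod
  exact nonneg_of_mul_nonneg_right hprod hsin

/-! ### No chords of length in `V_n` -/

/-- The trigonometric core: for `0 < y`, `y + c < π`, and `δ = (2n+1) c - 2π` with `|δ| < c`. -/
lemma core (N y c : ℝ) (hy : 0 < y) (hyc : y + c < π) (hc : 0 < c)
    (hd1 : N * c - 2 * π < c) (hd2 : -c < N * c - 2 * π) :
    Real.cos (N * y) * Real.sin (y + c) - Real.cos (N * (y + c)) * Real.sin y < Real.sin c := by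
  set δ : ℝ := N * c - 2 * π with hδ
  set m : ℝ := y + c / 2 with hm
  set A : ℝ := N * m with hA
  have e1 : Real.cos (N * y) = - Real.cos (A - δ / 2) := by
    have : N * y = (A - δ / 2) - π := by rw [hA, hm, hδ]; ring
    rw [this, Real.cos_sub_pi]
  have e2 : Real.cos (N * (y + c)) = - Real.cos (A + δ / 2) := by
    have : N * (y + c) = (A + δ / 2) + π := by rw [hA, hm, hδ]; ring
    rw [this, Real.cos_add_pi]
  have e3 : Real.sin (y + c) = Real.sin (m + c / 2) := by rw [hm]; ring_nf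
  have e4 : Real.sin y = Real.sin (m - c / 2) := by rw [hm]; ring_nf
  have e5 : Real.sin c = 2 * Real.sin (c / 2) * Real.cos (c / 2) := by
    rw [← Real.sin_two_mul]; ring_nf
  rw [e1, e2, e3, e4, e5, Real.cos_sub, Real.cos_add, Real.sin_add, Real.sin_sub]
  set cA := Real.cos A
  set sA := Real.sin A
  set cd := Real.cos (δ / 2)
  set sd := Real.sin (δ / 2)
  set cm := Real.cos m
  set sm := Real.sin m
  set cc := Real.cos (c / 2)
  set sc := Real.sin (c / 2)
  have hA2 : cA ^ 2 + sA ^ 2 = 1 := Real.cos_sq_add_sin_sq A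
  have hd2' : cd ^ 2 + sd ^ 2 = 1 := Real.cos_sq_add_sin_sq (δ / 2)
  have hm2 : cm ^ 2 + sm ^ 2 = 1 := Real.cos_sq_add_sin_sq m
  have hc2 : cc ^ 2 + sc ^ 2 = 1 := Real.cos_sq_add_sin_sq (c / 2)
  have hccpos : 0 < cc := Real.cos_pos_of_mem_Ioo ⟨by linarith, by linarith⟩
  have hscpos : 0 < sc := Real.sin_pos_of_pos_of_lt_pi (by linarith) (by linarith)
  -- `cos (δ/2) > cos (c/2)`
  have hcdcc : cc < cd := by
    have h1 : cd = Real.cos |δ / 2| := (Real.cos_abs _).symm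
    rw [h1]
    apply Real.cos_lt_cos_of_nonneg_of_le_pi (abs_nonneg _) (by linarith)
    rw [abs_lt]
    constructor <;> linarith
  -- `|cos m| < cos (c/2)`
  have hcm1 : cm < cc := by
    apply Real.cos_lt_cos_of_nonneg_of_le_pi (by linarith)
    · rw [hm]; linarith
    · rw [hm]; linarith
  have hcm2 : -cc < cm := by
    have : -cc = Real.cos (π - c / 2) := by rw [Real.cos_pi_sub]
    rw [this]
    apply Real.cos_lt_cos_of_nonneg_of_le_pi
    · rw [hm]; linarith
    · linarith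
    · rw [hm]; linarith
  have hM : cm ^ 2 < cc ^ 2 := by nlinarith
  have hD : cc ^ 2 < cd ^ 2 := by nlinarith
  have hab : (cd * sc * cm) ^ 2 + (sd * cc * sm) ^ 2 < (sc * cc) ^ 2 := by
    have g1 : sc ^ 2 = 1 - cc ^ 2 := by linarith
    have g2 : sd ^ 2 = 1 - cd ^ 2 := by linarith
    have g3 : sm ^ 2 = 1 - cm ^ 2 := by linarith
    have : (cd * sc * cm) ^ 2 + (sd * cc * sm) ^ 2
        = cd ^ 2 * sc ^ 2 * cm ^ 2 + sd ^ 2 * cc ^ 2 * sm ^ 2 := by ring
    rw [this, mul_pow, g1, g2, g3]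
    have hid : (1 - cc ^ 2) * cc ^ 2
        - (cd ^ 2 * (1 - cc ^ 2) * cm ^ 2 + (1 - cd ^ 2) * cc ^ 2 * (1 - cm ^ 2))
        = (cc ^ 2 - cm ^ 2) * (cd ^ 2 - cc ^ 2) := by ring
    have := mul_pos (sub_pos.mpr hM) (sub_pos.mpr hD)
    linarith
  have hcs : -(cA * (cd * sc * cm) + sA * (sd * cc * sm)) < sc * cc := by
    have hpos : 0 < sc * cc := mul_pos hscpos hccpos
    have hsq : (cA * (cd * sc * cm) + sA * (sd * cc * sm)) ^ 2
        ≤ (cd * sc * cm) ^ 2 + (sd * cc * sm) ^ 2 := by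
      have hid : (cd * sc * cm) ^ 2 + (sd * cc * sm) ^ 2
          - (cA * (cd * sc * cm) + sA * (sd * cc * sm)) ^ 2
          = (cA * (sd * cc * sm) - sA * (cd * sc * cm)) ^ 2
            + (1 - (cA ^ 2 + sA ^ 2)) * ((cd * sc * cm) ^ 2 + (sd * cc * sm) ^ 2) := by ring
      rw [hA2, sub_self, zero_mul, add_zero] at hid
      have := sq_nonneg (cA * (sd * cc * sm) - sA * (cd * sc * cm))
      linarith
    have := lt_of_le_of_lt hsq hab
    have := abs_lt_of_sq_lt_sq this hpos.le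
    have := (abs_lt.mp this).1
    linarith
  have hfin : -(cA * cd + sA * sd) * (sm * cc + cm * sc)
      - -(cA * cd - sA * sd) * (sm * cc - cm * sc)
      = 2 * (-(cA * (cd * sc * cm) + sA * (sd * cc * sm))) := by ring
  rw [hfin]
  linarith

/-- For `ℓ ∈ (1/(n+1), 1/n)`, every shift by `ℓ` strictly decreases `g_n`. -/
lemma g_shift_lt (n : ℕ) (hn : 1 ≤ n) (l b : ℝ) (hl1 : 1 / ((n : ℝ) + 1) < l)
    (hl2 : l < 1 / (n : ℝ)) (hb : 0 ≤ b) (hbl : b + l ≤ 1) : g n (b + l) < g n b := by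
  have hn0 : (1 : ℝ) ≤ n := by exact_mod_cast hn
  have hnpos : (0 : ℝ) < n := by linarith
  have hl0 : 0 < l := lt_trans (by positivity) hl1
  have hL1 : 1 < ((n : ℝ) + 1) * l := by
    rw [div_lt_iff₀ (by positivity)] at hl1
    linarith [mul_comm l ((n : ℝ) + 1)]
  have hL2 : (n : ℝ) * l < 1 := by
    rw [lt_div_iff₀ hnpos] at hl2
    linarith [mul_comm l (n : ℝ)]
  have hllt : l < 1 := by nlinarith
  have hπ := Real.pi_pos
  -- `g n l < 0`
  have hgl : g n l < 0 := by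
    have hs : 0 < Real.sin (π * l) := Real.sin_pos_of_pos_of_lt_pi (by positivity) (by nlinarith)
    have h1 : 0 < Real.sin ((n : ℝ) * (π * l)) := by
      apply Real.sin_pos_of_pos_of_lt_pi (by positivity)
      nlinarith
    have h2 : Real.sin (((n : ℝ) + 1) * (π * l)) < 0 := by
      have : Real.sin (((n : ℝ) + 1) * (π * l)) = - Real.sin (((n : ℝ) + 1) * (π * l) - π) := by
        rw [Real.sin_sub_pi]; ring
      rw [this, neg_lt_zero]
      apply Real.sin_pos_of_pos_of_lt_pi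
      · nlinarith
      · nlinarith
    have h3 := sin_mul_g n l
    have h4 : Real.sin ((n : ℝ) * (π * l)) * Real.sin (((n : ℝ) + 1) * (π * l)) < 0 :=
      mul_neg_of_pos_of_neg h1 h2
    rw [← h3] at h4
    by_contra hcon
    push Not at hcon
    have := mul_nonneg hs.le hcon
    linarith
  rcases eq_or_lt_of_le hb with hb | hb
  · subst hb; simpa [g_zero] using hgl
  rcases eq_or_lt_of_le hbl with hbl | hbl
  · have e1 : b + l = 1 := hbl
    have e2 : b = 1 - l := by linarith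
    rw [e1, g_one, e2, g_one_sub]
    linarith
  have hsb : 0 < Real.sin (π * b) := Real.sin_pos_of_pos_of_lt_pi (by positivity) (by nlinarith)
  have hsbl : 0 < Real.sin (π * (b + l)) :=
    Real.sin_pos_of_pos_of_lt_pi (by positivity) (by nlinarith)
  have hcore := core (2 * (n : ℝ) + 1) (π * b) (π * l) (by positivity) (by nlinarith)
    (by positivity) (by nlinarith) (by nlinarith)
  have k1 := two_sin_mul_g n b
  have k2 := two_sin_mul_g n (b + l)
  have e1 : π * (b + l) = π * b + π * l := by ring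
  have hsinl : Real.sin (π * l) = Real.sin (π * b + π * l) * Real.cos (π * b)
      - Real.cos (π * b + π * l) * Real.sin (π * b) := by
    rw [← Real.sin_sub]; ring_nf
  rw [e1] at k2 hsbl
  rw [hsinl] at hcore
  have hfinal : 2 * Real.sin (π * b) * Real.sin (π * b + π * l) * g n (b + l)
      < 2 * Real.sin (π * b) * Real.sin (π * b + π * l) * g n b := by
    have r1 : 2 * Real.sin (π * b) * Real.sin (π * b + π * l) * g n (b + l)
        = Real.sin (π * b) * (2 * Real.sin (π * b + π * l) * g n (b + l)) := by ring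
    have r2 : 2 * Real.sin (π * b) * Real.sin (π * b + π * l) * g n b
        = Real.sin (π * b + π * l) * (2 * Real.sin (π * b) * g n b) := by ring
    rw [r1, r2, k1, k2]
    nlinarith [hcore]
  have hp : 0 < 2 * Real.sin (π * b) * Real.sin (π * b + π * l) := by positivity
  exact lt_of_mul_lt_mul_left hfinal hp.le

/-- Iterating: shifts by `j ℓ` for `j ≥ 1` also strictly decrease `g_n`. -/
lemma g_shift_iter_lt (n : ℕ) (hn : 1 ≤ n) (l b : ℝ) (hl1 : 1 / ((n : ℝ) + 1) < l)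
    (hl2 : l < 1 / (n : ℝ)) (hb : 0 ≤ b) (j : ℕ) (hbl : b + ((j : ℝ) + 1) * l ≤ 1) :
    g n (b + ((j : ℝ) + 1) * l) < g n b := by
  have hl0 : 0 < l := lt_trans (by positivity) hl1
  induction j with
  | zero =>
    have := g_shift_lt n hn l b hl1 hl2 hb (by simpa using hbl)
    simpa using this
  | succ j ih =>
    have hj0 : (0 : ℝ) ≤ j := Nat.cast_nonneg j
    have h1 : b + ((j : ℝ) + 1) * l ≤ 1 := by
      push_cast at hbl
      nlinarith
    have h2 := g_shift_lt n hn l (b + ((j : ℝ) + 1) * l) hl1 hl2 (by positivity)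
      (by push_cast at hbl; linarith)
    have e : b + (((j + 1 : ℕ) : ℝ) + 1) * l = b + ((j : ℝ) + 1) * l + l := by push_cast; ring
    rw [e]
    exact lt_trans h2 (ih h1)

/-- **Full answer to Q1.** For every `n ≥ 1`, the chord set of `g_n` is exactly `[0,1] \ V_n`. -/
theorem result (n : ℕ) (hn : 1 ≤ n) : H (g n) = Set.Icc (0 : ℝ) 1 \ V n := by
  have hn0 : (0 : ℝ) < n := by exact_mod_cast hn
  ext l
  constructor
  · rintro ⟨hl, x, hx, hgx⟩
    refine ⟨hl, ?_⟩
    intro hV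
    unfold V at hV
    simp only [Set.mem_iUnion] at hV
    obtain ⟨k, hk, hk1, hk2⟩ := hV
    have hkpos : (0 : ℝ) < k := by exact_mod_cast (Finset.mem_Icc.mp hk).1
    obtain ⟨j, rfl⟩ : ∃ j, k = j + 1 := ⟨k - 1, by have := (Finset.mem_Icc.mp hk).1; omega⟩
    have hm1 : 1 / ((n : ℝ) + 1) < l / ((j + 1 : ℕ) : ℝ) := by
      rw [lt_div_iff₀ hkpos]
      calc 1 / ((n : ℝ) + 1) * ((j + 1 : ℕ) : ℝ) = ((j + 1 : ℕ) : ℝ) / ((n : ℝ) + 1) := by ring
        _ < l := hk1
    have hm2 : l / ((j + 1 : ℕ) : ℝ) < 1 / (n : ℝ) := by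
      rw [div_lt_iff₀ hkpos]
      calc l < ((j + 1 : ℕ) : ℝ) / (n : ℝ) := hk2
        _ = 1 / (n : ℝ) * ((j + 1 : ℕ) : ℝ) := by ring
    have hl' : ((j : ℝ) + 1) * (l / ((j + 1 : ℕ) : ℝ)) = l := by
      have : ((j : ℝ) + 1) = ((j + 1 : ℕ) : ℝ) := by push_cast; ring
      rw [this]
      field_simp
    have := g_shift_iter_lt n hn (l / ((j + 1 : ℕ) : ℝ)) (x - l) hm1 hm2 (by linarith [hx.1]) j
      (by rw [hl']; linarith [hx.2])
    rw [hl', sub_add_cancel, hgx] at this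
    exact lt_irrefl _ this
  · rintro ⟨hl, hV⟩
    exact ⟨hl, exists_chord n l hl.1 hl.2 (g_nonneg_of_not_mem n hn l hl.1 hl.2 hV)⟩

end Pool.Agent.Results.MP_174dab_an.ChordSetFull
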